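import Mathlib
import Pool.Agent.Helper57.TW.Goals
import Pool.Agent.Helper67.CR.FW

/-! # Fundamental lemma with weights for the densities `1/(p-1)` (packet T74B-FP, MP_74f661_nt) -/

set_option autoImplicit false

open Finset

open scoped Classical

namespace Pool.Agent.Helper35.TW

open Pool.Agent.Helper88.CR (StmtF0)
open Pool.Agent.Helper57.TW (StmtFP)
open Pool.Agent.Helper67.CR (al es bonf_low bonf_up es_nonneg es_le prod_ge prod_sum TT TU TT_abs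
  TT_one TU_one prod_split gg gg_nonneg gg_step sq_prod sum_conv)

/-- the sieve weights, indexed by sets of primes, for the densities `x p` -/
def SX (x : ℕ → ℝ) (z b : ℕ) (g : ℝ) (P : Finset ℕ) : Prop := ∃ l l' : Finset ℕ → ℝ,
  (∀ A, |l A| ≤ 1 ∧ |l' A| ≤ 1) ∧
  (∀ A ⊆ P, l A ≠ 0 ∨ l' A ≠ 0 → ∏ p ∈ A, p ≤ z ^ (4 * b + 6)) ∧
  (∀ S ⊆ P, 0 ≤ ∑ A ∈ S.powerset, l A - (if S = ∅ then 1 else 0) ∧
    ∑ A ∈ S.powerset, l A - (if S = ∅ then 1 else 0) ≤ ∑ A ∈ S.powerset, l' A) ∧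
  ∏ p ∈ P, (1 - x p) ≤ ∑ A ∈ P.powerset, l A * ∏ p ∈ A, x p ∧
  ∑ A ∈ P.powerset, l A * ∏ p ∈ A, x p ≤ (1 + g) * ∏ p ∈ P, (1 - x p) ∧
  ∑ A ∈ P.powerset, l' A * ∏ p ∈ A, x p ≤ g * ∏ p ∈ P, (1 - x p)

theorem TT_mean (x : ℕ → ℝ) (b : ℕ) (S : Finset ℕ) :
    ∑ A ∈ S.powerset, TT b A * ∏ p ∈ A, x p = al (2 * b) x S := by
  unfold TT al
  refine sum_congr rfl fun A _ => ?_
  split_ifs
  · rfl
  · rw [zero_mul]

theorem TU_mean (x : ℕ → ℝ) (b : ℕ) (S : Finset ℕ) :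
    ∑ A ∈ S.powerset, TU b A * ∏ p ∈ A, x p = es (2 * b + 1) x S := by
  unfold TU es
  refine sum_congr rfl fun A _ => ?_
  split_ifs
  · rw [one_mul]
  · rw [zero_mul]

theorem prod_split' (x : ℕ → ℝ) {A P₁ B : Finset ℕ} (hA : A ⊆ P₁ ∪ B) (hd : Disjoint P₁ B) :
    ∏ p ∈ A, x p = (∏ p ∈ A ∩ P₁, x p) * ∏ p ∈ A ∩ B, x p := by
  rw [← prod_union]
  · rw [← inter_union_distrib_left, inter_eq_left.2 hA]
  · exact disjoint_of_subset_left inter_subset_right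
      (disjoint_of_subset_right inter_subset_right hd)

/-- one step -/
theorem step {x : ℕ → ℝ} {z z₁ b : ℕ} {g₁ g τ : ℝ} {P₁ B : Finset ℕ} (hz : 1 ≤ z)
    (hz₁ : z₁ ^ 2 ≤ z) (hd : Disjoint P₁ B) (hP₁ : ∀ p ∈ P₁, x p ≤ 1)
    (hB : ∀ p ∈ B, p ≤ z) (hx0 : ∀ p ∈ B, 0 ≤ x p) (hx1 : ∀ p ∈ B, x p ≤ 1)
    (hg₁ : 0 ≤ g₁) (hτ0 : 0 ≤ τ)
    (hτ : es (2 * b + 1) x B ≤ τ * ∏ p ∈ B, (1 - x p))
    (hg : g₁ * (1 + 2 * τ) + τ ≤ g) (h : SX x z₁ (b + 1) g₁ P₁) : SX x z b g (P₁ ∪ B) := by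
  obtain ⟨l, l', ha, hlev, hs, hm1, hm2, hm3⟩ := h
  have hV₁ : 0 ≤ ∏ p ∈ P₁, (1 - x p) := prod_nonneg fun p hp => by
    have := hP₁ p hp
    linarith
  have hVB : 0 ≤ ∏ p ∈ B, (1 - x p) := prod_nonneg fun p hp => by
    have := hx1 p hp
    linarith
  have e1 : ∀ S ⊆ P₁ ∪ B, ∑ A ∈ S.powerset, l (A ∩ P₁) * TT b (A ∩ B) =
      (∑ A ∈ (S ∩ P₁).powerset, l A) * al (2 * b) (fun _ => 1) (S ∩ B) := fun S hS => by
    rw [prod_sum hS hd, TT_one]
  have e2 : ∀ S ⊆ P₁ ∪ B, ∑ A ∈ S.powerset,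
      (l' (A ∩ P₁) * TT b (A ∩ B) + l (A ∩ P₁) * TU b (A ∩ B)) =
      (∑ A ∈ (S ∩ P₁).powerset, l' A) * al (2 * b) (fun _ => 1) (S ∩ B) +
      (∑ A ∈ (S ∩ P₁).powerset, l A) * es (2 * b + 1) (fun _ => 1) (S ∩ B) := fun S hS => by
    rw [sum_add_distrib, prod_sum hS hd, prod_sum hS hd, TT_one, TU_one]
  have hPP : (P₁ ∪ B) ∩ P₁ = P₁ := by
    rw [inter_eq_right]
    exact subset_union_left
  have hPB : (P₁ ∪ B) ∩ B = B := by
    rw [inter_eq_right]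
    exact subset_union_right
  have hsplit : ∀ (f g : Finset ℕ → ℝ), ∑ A ∈ (P₁ ∪ B).powerset,
      f (A ∩ P₁) * g (A ∩ B) * ∏ p ∈ A, x p =
      (∑ A ∈ P₁.powerset, f A * ∏ p ∈ A, x p) * ∑ A ∈ B.powerset, g A * ∏ p ∈ A, x p := by
    intro f g
    have h1 := prod_sum (S := P₁ ∪ B) (P₁ := P₁) (B := B) Subset.rfl hd
      (fun A => f A * ∏ p ∈ A, x p) (fun A => g A * ∏ p ∈ A, x p)
    rw [hPP, hPB] at h1
    rw [← h1]
    refine sum_congr rfl fun A hA => ?_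
    rw [mem_powerset] at hA
    rw [prod_split' x hA hd]
    ring
  have e3 : ∑ A ∈ (P₁ ∪ B).powerset, l (A ∩ P₁) * TT b (A ∩ B) * ∏ p ∈ A, x p =
      (∑ A ∈ P₁.powerset, l A * ∏ p ∈ A, x p) * al (2 * b) x B := by
    rw [hsplit, TT_mean]
  have e4 : ∑ A ∈ (P₁ ∪ B).powerset,
      (l' (A ∩ P₁) * TT b (A ∩ B) + l (A ∩ P₁) * TU b (A ∩ B)) * ∏ p ∈ A, x p =
      (∑ A ∈ P₁.powerset, l' A * ∏ p ∈ A, x p) * al (2 * b) x B +
      (∑ A ∈ P₁.powerset, l A * ∏ p ∈ A, x p) * es (2 * b + 1) x B := by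
    rw [← TT_mean, ← TU_mean, ← hsplit, ← hsplit, ← sum_add_distrib]
    exact sum_congr rfl fun A _ => add_mul _ _ _
  have hlow := bonf_low hx0 hx1 b
  have hup := bonf_up hx0 hx1 b
  have hes := es_nonneg hx0 (2 * b + 1)
  refine ⟨fun A => l (A ∩ P₁) * TT b (A ∩ B),
    fun A => l' (A ∩ P₁) * TT b (A ∩ B) + l (A ∩ P₁) * TU b (A ∩ B), ?_, ?_, ?_, ?_, ?_, ?_⟩
  · intro A
    obtain ⟨h1, h2⟩ := ha (A ∩ P₁)
    have h3 := TT_abs b (A ∩ B)
    constructor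
    · rw [abs_mul]
      exact mul_le_one₀ h1 (abs_nonneg _) h3
    · show |l' (A ∩ P₁) * TT b (A ∩ B) + l (A ∩ P₁) * TU b (A ∩ B)| ≤ 1
      unfold TU
      split_ifs with h4
      · have h5 : TT b (A ∩ B) = 0 := by
          unfold TT
          rw [if_neg (by omega)]
        rw [h5, mul_zero, zero_add, mul_one]
        exact h1
      · rw [mul_zero, add_zero, abs_mul]
        exact mul_le_one₀ h2 (abs_nonneg _) h3
  · intro A hA hne
    have hne : l (A ∩ P₁) * TT b (A ∩ B) ≠ 0 ∨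
        l' (A ∩ P₁) * TT b (A ∩ B) + l (A ∩ P₁) * TU b (A ∩ B) ≠ 0 := hne
    have h1 : (l (A ∩ P₁) ≠ 0 ∨ l' (A ∩ P₁) ≠ 0) ∧ (A ∩ B).card ≤ 2 * b + 1 := by
      by_contra hcon
      rw [not_and_or, not_or, not_not, not_not] at hcon
      rcases hcon with ⟨h2, h3⟩ | h2
      · rw [h2, h3] at hne
        simp at hne
      · have h3 : TT b (A ∩ B) = 0 := by
          unfold TT
          rw [if_neg (by omega)]
        have h4 : TU b (A ∩ B) = 0 := by
          unfold TU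
          rw [if_neg (by omega)]
        rw [h3, h4] at hne
        simp at hne
    have h2 := hlev (A ∩ P₁) inter_subset_right h1.1
    have h3 : ∏ p ∈ A ∩ B, p ≤ z ^ (2 * b + 1) := by
      refine (prod_le_pow_card (A ∩ B) (fun p => p) z
        (fun p hp => hB p (mem_inter.1 hp).2)).trans ?_
      exact Nat.pow_le_pow_right hz h1.2
    have h4 : z₁ ^ (4 * (b + 1) + 6) ≤ z ^ (2 * b + 5) := by
      rw [show 4 * (b + 1) + 6 = 2 * (2 * b + 5) by ring, pow_mul]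
      exact Nat.pow_le_pow_left hz₁ _
    rw [prod_split hA hd]
    calc _ ≤ z ^ (2 * b + 5) * z ^ (2 * b + 1) := Nat.mul_le_mul (h2.trans h4) h3
      _ = _ := by rw [← pow_add]; congr 1; ring
  · intro S hS
    obtain ⟨h1, h2⟩ := hs (S ∩ P₁) inter_subset_right
    have h3 := bonf_low (B := S ∩ B) (x := fun _ => 1) (fun _ _ => zero_le_one)
      (fun _ _ => le_rfl) b
    have h4 := bonf_up (B := S ∩ B) (x := fun _ => 1) (fun _ _ => zero_le_one)
      (fun _ _ => le_rfl) b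
    have h5 := es_nonneg (B := S ∩ B) (x := fun _ => 1) (fun _ _ => zero_le_one) (2 * b + 1)
    have h6 : ∏ p ∈ S ∩ B, (1 - (fun _ => (1 : ℝ)) p) = if S ∩ B = ∅ then 1 else 0 := by
      split_ifs with h7
      · rw [h7, prod_empty]
      · obtain ⟨p, hp⟩ := nonempty_iff_ne_empty.2 h7
        exact prod_eq_zero hp (by norm_num)
    rw [h6] at h3 h4
    rw [e1 S hS, e2 S hS]
    have h7 : (if S = ∅ then (1 : ℝ) else 0) =
        (if S ∩ P₁ = ∅ then 1 else 0) * (if S ∩ B = ∅ then 1 else 0) := by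
      have h8 : S = ∅ ↔ S ∩ P₁ = ∅ ∧ S ∩ B = ∅ := by
        constructor
        · intro h
          rw [h]
          simp
        · rintro ⟨h9, h10⟩
          rw [← inter_eq_left.2 hS, inter_union_distrib_left, h9, h10, union_empty]
      by_cases h9 : S ∩ P₁ = ∅
      · by_cases h10 : S ∩ B = ∅
        · rw [if_pos h9, if_pos h10, if_pos (h8.2 ⟨h9, h10⟩), mul_one]
        · rw [if_pos h9, if_neg h10, if_neg (fun h => h10 (h8.1 h).2), mul_zero]
      · rw [if_neg h9, if_neg (fun h => h9 (h8.1 h).1), zero_mul]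
    rw [h7]
    have h8 : (0 : ℝ) ≤ if S ∩ P₁ = ∅ then 1 else 0 := by split_ifs <;> norm_num
    have h9 : (0 : ℝ) ≤ if S ∩ B = ∅ then 1 else 0 := by split_ifs <;> norm_num
    generalize (if S ∩ P₁ = ∅ then (1 : ℝ) else 0) = i₁ at *
    generalize (if S ∩ B = ∅ then (1 : ℝ) else 0) = iB at *
    generalize (∑ A ∈ (S ∩ P₁).powerset, l A) = a at *
    generalize (∑ A ∈ (S ∩ P₁).powerset, l' A) = a' at *
    generalize al (2 * b) (fun _ => 1) (S ∩ B) = t at *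
    generalize es (2 * b + 1) (fun _ => 1) (S ∩ B) = t' at *
    have ht : 0 ≤ t := h9.trans h3
    constructor
    · nlinarith [mul_nonneg h1 ht, mul_nonneg h8 (sub_nonneg.2 h3)]
    · have g1 : (a - i₁) * t ≤ a' * t := mul_le_mul_of_nonneg_right h2 ht
      have g2 : i₁ * (t - iB) ≤ i₁ * t' := mul_le_mul_of_nonneg_left (by linarith) h8
      have g3 : i₁ * t' ≤ a * t' := mul_le_mul_of_nonneg_right (by linarith) h5
      nlinarith
  · rw [e3, prod_union hd]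
    exact mul_le_mul hm1 hlow hVB (hV₁.trans hm1)
  · rw [e3, prod_union hd]
    have h1 : al (2 * b) x B ≤ (1 + τ) * ∏ p ∈ B, (1 - x p) := by
      linarith
    calc _ ≤ ((1 + g₁) * ∏ p ∈ P₁, (1 - x p)) * ((1 + τ) * ∏ p ∈ B, (1 - x p)) :=
          mul_le_mul hm2 h1 (hVB.trans hlow) (mul_nonneg (by linarith) hV₁)
      _ = ((1 + g₁) * (1 + τ)) * ((∏ p ∈ P₁, (1 - x p)) * ∏ p ∈ B, (1 - x p)) := by ring
      _ ≤ (1 + g) * ((∏ p ∈ P₁, (1 - x p)) * ∏ p ∈ B, (1 - x p)) := by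
          refine mul_le_mul_of_nonneg_right ?_ (mul_nonneg hV₁ hVB)
          nlinarith [mul_nonneg hg₁ hτ0]
  · rw [e4, prod_union hd]
    have h1 : al (2 * b) x B ≤ (1 + τ) * ∏ p ∈ B, (1 - x p) := by
      linarith
    have h2 : 0 ≤ al (2 * b) x B := hVB.trans hlow
    have h3 : (∑ A ∈ P₁.powerset, l' A * ∏ p ∈ A, x p) * al (2 * b) x B ≤
        (g₁ * ∏ p ∈ P₁, (1 - x p)) * ((1 + τ) * ∏ p ∈ B, (1 - x p)) :=
      (mul_le_mul_of_nonneg_right hm3 h2).trans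
        (mul_le_mul_of_nonneg_left h1 (mul_nonneg hg₁ hV₁))
    have h4 : (∑ A ∈ P₁.powerset, l A * ∏ p ∈ A, x p) * es (2 * b + 1) x B ≤
        ((1 + g₁) * ∏ p ∈ P₁, (1 - x p)) * (τ * ∏ p ∈ B, (1 - x p)) :=
      mul_le_mul hm2 hτ hes (mul_nonneg (by linarith) hV₁)
    calc _ ≤ (g₁ * ∏ p ∈ P₁, (1 - x p)) * ((1 + τ) * ∏ p ∈ B, (1 - x p)) +
          ((1 + g₁) * ∏ p ∈ P₁, (1 - x p)) * (τ * ∏ p ∈ B, (1 - x p)) :=
          add_le_add h3 h4
      _ = (g₁ * (1 + 2 * τ) + τ) * ((∏ p ∈ P₁, (1 - x p)) * ∏ p ∈ B, (1 - x p)) := by ring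
      _ ≤ _ := mul_le_mul_of_nonneg_right hg (mul_nonneg hV₁ hVB)

theorem tail_le {x : ℕ → ℝ} {C₀ : ℝ} {B : Finset ℕ} (hx0 : ∀ p ∈ B, 0 ≤ x p)
    (hx2 : ∀ p ∈ B, x p ≤ 1 / 2) (hC : ∑ p ∈ B, x p ≤ C₀) (b : ℕ) :
    es (2 * b + 1) x B ≤ Real.exp (4 * C₀) * Real.exp (-(b : ℝ)) * ∏ p ∈ B, (1 - x p) := by
  have h1 := es_le hx0 (2 * b + 1)
  have h2 := prod_ge hx0 hx2
  have h3 : Real.exp (2 * ∑ p ∈ B, x p) ≤ Real.exp (2 * C₀) :=
    Real.exp_le_exp.2 (by linarith)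
  have h4 : Real.exp (-(2 * C₀)) ≤ ∏ p ∈ B, (1 - x p) :=
    (Real.exp_le_exp.2 (by linarith)).trans h2
  have h5 : Real.exp (b : ℝ) ≤ 2 ^ (2 * b + 1) := by
    have h6 : Real.exp 1 ≤ 4 := by
      have := Real.exp_one_lt_d9
      linarith
    calc Real.exp (b : ℝ) = Real.exp 1 ^ b := by
          rw [← Real.exp_nat_mul, mul_one]
      _ ≤ 4 ^ b := pow_le_pow_left₀ (Real.exp_pos _).le h6 b
      _ = 2 ^ (2 * b) := by rw [pow_mul]; norm_num
      _ ≤ 2 ^ (2 * b + 1) := pow_le_pow_right₀ (by norm_num) (by omega)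
  have hes := es_nonneg hx0 (2 * b + 1)
  have h6 : Real.exp (b : ℝ) * es (2 * b + 1) x B ≤ Real.exp (2 * C₀) :=
    (mul_le_mul_of_nonneg_right h5 hes).trans (h1.trans h3)
  have h7 : Real.exp (-(b : ℝ)) * Real.exp (b : ℝ) = 1 := by
    rw [← Real.exp_add, neg_add_cancel, Real.exp_zero]
  have h8 : Real.exp (4 * C₀) * Real.exp (-(2 * C₀)) = Real.exp (2 * C₀) := by
    rw [← Real.exp_add]
    congr 1
    ring
  calc es (2 * b + 1) x B
      = Real.exp (-(b : ℝ)) * (Real.exp (b : ℝ) * es (2 * b + 1) x B) := by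
        rw [← mul_assoc, h7, one_mul]
    _ ≤ Real.exp (-(b : ℝ)) * (Real.exp (4 * C₀) * Real.exp (-(2 * C₀))) := by
        rw [h8]
        exact mul_le_mul_of_nonneg_left h6 (Real.exp_pos _).le
    _ = Real.exp (4 * C₀) * Real.exp (-(b : ℝ)) * Real.exp (-(2 * C₀)) := by ring
    _ ≤ _ := mul_le_mul_of_nonneg_left h4 (by positivity)

theorem main {x : ℕ → ℝ} {C₀ : ℝ} (hx0 : ∀ p, 3 ≤ p → 0 ≤ x p) (hx2 : ∀ p, 3 ≤ p → x p ≤ 1 / 2)
    (hF : ∀ z : ℕ, 2 ≤ z → ∀ B : Finset ℕ,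
      (∀ p ∈ B, p.Prime ∧ 3 ≤ p ∧ Nat.sqrt z < p ∧ p ≤ z) → ∑ p ∈ B, x p ≤ C₀) (z : ℕ) :
    1 ≤ z → ∀ (b : ℕ) (P : Finset ℕ), (∀ p ∈ P, p.Prime ∧ 3 ≤ p ∧ p ≤ z) →
      SX x z b (gg (Real.exp (4 * C₀) / (1 - Real.exp (-1))) b) P := by
  have he : Real.exp (-1) < 1 := by
    rw [← Real.exp_zero]
    exact Real.exp_lt_exp.2 (by norm_num)
  have hK : 0 ≤ Real.exp (4 * C₀) / (1 - Real.exp (-1)) :=
    div_nonneg (Real.exp_pos _).le (by linarith)
  induction z using Nat.strong_induction_on with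
  | _ z ih =>
    intro hz b P hP
    rcases Nat.lt_or_ge z 2 with h2 | h2
    · have hP0 : P = ∅ := by
        rw [eq_empty_iff_forall_notMem]
        intro p hp
        have h3 := (hP p hp).1.two_le
        have h4 := (hP p hp).2.2
        omega
      subst hP0
      refine ⟨fun A => if A = ∅ then 1 else 0, fun _ => 0, ?_, ?_, ?_, ?_, ?_, ?_⟩
      · intro A
        constructor
        · show |if A = ∅ then (1 : ℝ) else 0| ≤ 1
          split_ifs <;> norm_num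
        · simp
      · intro A hA _
        rw [subset_empty] at hA
        rw [hA, prod_empty]
        exact Nat.one_le_pow _ _ (by omega)
      · intro S hS
        rw [subset_empty] at hS
        subst hS
        simp
      · simp
      · simp only [powerset_empty, sum_singleton, prod_empty, if_true, mul_one]
        have := gg_nonneg hK b
        linarith
      · simp only [powerset_empty, sum_singleton, prod_empty, mul_one]
        exact gg_nonneg hK b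
    · have hs1 : 1 ≤ Nat.sqrt z := Nat.sqrt_pos.2 (by omega)
      have hs2 : Nat.sqrt z < z := Nat.sqrt_lt_self (by omega)
      have hs3 : Nat.sqrt z ^ 2 ≤ z := Nat.sqrt_le' z
      have hsplit : P = P.filter (fun p => p ≤ Nat.sqrt z) ∪
          P.filter (fun p => ¬ p ≤ Nat.sqrt z) := (filter_union_filter_not_eq _ _).symm
      have hBC : ∑ p ∈ P.filter (fun p => ¬ p ≤ Nat.sqrt z), x p ≤ C₀ := by
        refine hF z h2 _ fun p hp => ?_
        rw [mem_filter] at hp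
        obtain ⟨h3, h4, h5⟩ := hP p hp.1
        exact ⟨h3, h4, by omega, h5⟩
      have h3B : ∀ p ∈ P.filter (fun p => ¬ p ≤ Nat.sqrt z), 3 ≤ p := fun p hp =>
        (hP p (mem_filter.1 hp).1).2.1
      rw [hsplit]
      refine step (z₁ := Nat.sqrt z) hz hs3 (disjoint_filter_filter_not _ _ _) ?_ ?_ ?_ ?_
        (gg_nonneg hK (b + 1)) (τ := Real.exp (4 * C₀) * Real.exp (-(b : ℝ))) (by positivity)
        (tail_le ?_ ?_ hBC b) ?_ (ih (Nat.sqrt z) hs2 hs1 (b + 1) _ ?_)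
      · intro p hp
        have := hx2 p (hP p (mem_filter.1 hp).1).2.1
        linarith
      · intro p hp
        exact (hP p (mem_filter.1 hp).1).2.2
      · intro p hp
        exact hx0 p (h3B p hp)
      · intro p hp
        have := hx2 p (h3B p hp)
        linarith
      · intro p hp
        exact hx0 p (h3B p hp)
      · intro p hp
        exact hx2 p (h3B p hp)
      · have h3 := gg_step hK b
        have h4 : Real.exp (4 * C₀) / (1 - Real.exp (-1)) * (1 - Real.exp (-1)) =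
            Real.exp (4 * C₀) := div_mul_cancel₀ _ (by linarith)
        rw [h4] at h3
        exact h3
      · intro p hp
        rw [mem_filter] at hp
        exact ⟨(hP p hp.1).1, (hP p hp.1).2.1, hp.2⟩

theorem tot_prod {A : Finset ℕ} (hA : ∀ p ∈ A, p.Prime) :
    (1 : ℝ) / (Nat.totient (∏ p ∈ A, p) : ℝ) = ∏ p ∈ A, 1 / ((p : ℝ) - 1) := by
  induction A using Finset.induction_on with
  | empty => simp
  | insert q B hq ih =>
    have hq' := hA q (mem_insert_self _ _)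
    have hB : ∀ p ∈ B, p.Prime := fun p hp => hA p (mem_insert_of_mem hp)
    rw [prod_insert hq, prod_insert hq]
    have hcop : Nat.Coprime q (∏ p ∈ B, p) := by
      refine Nat.Coprime.prod_right fun p hp => ?_
      refine (Nat.coprime_primes hq' (hB p hp)).2 ?_
      rintro rfl
      exact hq hp
    rw [Nat.totient_mul hcop, Nat.totient_prime hq', ← ih hB, Nat.cast_mul,
      Nat.cast_sub hq'.one_lt.le, Nat.cast_one, ← one_div_mul_one_div]

theorem fp (h : StmtF0) : StmtFP := by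
  obtain ⟨C₀, hC₀, hF⟩ := h
  have he : Real.exp (-1) < 1 := by
    rw [← Real.exp_zero]
    exact Real.exp_lt_exp.2 (by norm_num)
  obtain ⟨K, hKd⟩ : ∃ K : ℝ, K = Real.exp (4 * (2 * C₀)) / (1 - Real.exp (-1)) := ⟨_, rfl⟩
  have hK : 0 < K := by
    rw [hKd]
    exact div_pos (Real.exp_pos _) (by linarith)
  have hx0 : ∀ p : ℕ, 3 ≤ p → 0 ≤ (fun q : ℕ => 1 / ((q : ℝ) - 1)) p := fun p hp => by
    have h2 : (3 : ℝ) ≤ p := by exact_mod_cast hp
    show 0 ≤ 1 / ((p : ℝ) - 1)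
    exact div_nonneg zero_le_one (by linarith)
  have hx2 : ∀ p : ℕ, 3 ≤ p → (fun q : ℕ => 1 / ((q : ℝ) - 1)) p ≤ 1 / 2 := fun p hp => by
    have h2 : (3 : ℝ) ≤ p := by exact_mod_cast hp
    show 1 / ((p : ℝ) - 1) ≤ 1 / 2
    exact one_div_le_one_div_of_le (by norm_num) (by linarith)
  have hFx : ∀ z : ℕ, 2 ≤ z → ∀ B : Finset ℕ,
      (∀ p ∈ B, p.Prime ∧ 3 ≤ p ∧ Nat.sqrt z < p ∧ p ≤ z) →
      ∑ p ∈ B, (fun q : ℕ => 1 / ((q : ℝ) - 1)) p ≤ 2 * C₀ := by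
    intro z hz B hB
    have h1 : ∑ p ∈ B, 1 / (p : ℝ) ≤ C₀ := by
      refine le_trans (sum_le_sum_of_subset_of_nonneg ?_ (fun _ _ _ => by positivity)) (hF z hz)
      intro p hp
      obtain ⟨h3, _, h5, h6⟩ := hB p hp
      rw [mem_filter, mem_Ioc]
      exact ⟨⟨h5, h6⟩, h3⟩
    calc _ ≤ ∑ p ∈ B, 2 * (1 / (p : ℝ)) := sum_le_sum fun p hp => by
          have h2 : (3 : ℝ) ≤ p := by exact_mod_cast (hB p hp).2.1
          show 1 / ((p : ℝ) - 1) ≤ 2 * (1 / (p : ℝ))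
          rw [mul_one_div, div_le_div_iff₀ (by linarith) (by linarith)]
          linarith
      _ = 2 * ∑ p ∈ B, 1 / (p : ℝ) := by rw [mul_sum]
      _ ≤ _ := by linarith
  refine ⟨Real.exp (2 * K) * K, by positivity, fun z b hz P hP => ?_⟩
  obtain ⟨L, L', ha, hlev, hs, hm1, hm2, hm3⟩ := main hx0 hx2 hFx z hz b P hP
  rw [← hKd] at hm2 hm3
  have hgg : gg K b ≤ Real.exp (2 * K) * K * Real.exp (-(b : ℝ)) := by
    unfold gg
    have h1 : Real.exp (-(b : ℝ)) ≤ 1 := Real.exp_le_one_iff.2 (by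
      have : (0 : ℝ) ≤ b := Nat.cast_nonneg b
      linarith)
    have h2 : Real.exp (2 * (K * Real.exp (-(b : ℝ)))) ≤ Real.exp (2 * K) :=
      Real.exp_le_exp.2 (by nlinarith)
    rw [mul_assoc]
    exact mul_le_mul_of_nonneg_right h2 (by positivity)
  have hV : 0 ≤ ∏ p ∈ P, (1 - 1 / ((p : ℝ) - 1)) := prod_nonneg fun p hp => by
    have h2 := hx2 p (hP p hp).2.1
    have h3 : 1 / ((p : ℝ) - 1) ≤ 1 / 2 := h2
    linarith
  have hprime : ∀ p ∈ P, p.Prime := fun p hp => (hP p hp).1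
  have hpp : ∀ A ⊆ P, (∏ p ∈ A, p).primeFactors = A := fun A hA =>
    Nat.primeFactors_prod fun p hp => hprime p (hA hp)
  have hdv : ∀ A ⊆ P, ∏ p ∈ A, p ∣ ∏ p ∈ P, p := fun A hA =>
    prod_dvd_prod_of_subset _ _ _ hA
  have hsq : Squarefree (∏ p ∈ P, p) := sq_prod hprime
  have hpos : ∀ A ⊆ P, 1 ≤ ∏ p ∈ A, p := fun A hA =>
    Nat.one_le_iff_ne_zero.2 (prod_ne_zero_iff.2 fun p hp => (hprime p (hA hp)).ne_zero)
  have hpf : ∀ d : ℕ, d ∣ ∏ p ∈ P, p → d.primeFactors ⊆ P := by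
    intro d hd
    have h1 := Nat.primeFactors_mono hd (by
      have := hpos P Subset.rfl
      omega)
    rwa [hpp P Subset.rfl] at h1
  -- the sum over the divisors of n
  have hdiv : ∀ (F : Finset ℕ → ℝ) (n : ℕ), 1 ≤ n →
      ∑ d ∈ n.divisors, (if d ∣ ∏ p ∈ P, p then F d.primeFactors else 0) =
        ∑ A ∈ (P.filter (fun p => p ∣ n)).powerset, F A := by
    intro F n hn
    refine sum_conv hprime F _ n.divisors _ (filter_subset _ _) ?_ ?_ ?_ ?_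
    · intro A hA
      rw [Nat.mem_divisors]
      refine ⟨?_, by omega⟩
      refine Finset.prod_primes_dvd n (fun p hp => ?_) (fun p hp => (mem_filter.1 (hA hp)).2)
      exact (hprime p (mem_filter.1 (hA hp)).1).prime
    · intro d hd hdP p hp
      rw [Nat.mem_divisors] at hd
      rw [mem_filter]
      exact ⟨hpf d hdP hp, (Nat.dvd_of_mem_primeFactors hp).trans hd.1⟩
    · intro A hA
      rw [if_pos (hdv A hA), hpp A hA]
    · intro d _ hd
      rw [if_neg hd]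
  -- the means
  have hmean : ∀ (F : Finset ℕ → ℝ), (∀ A ⊆ P, F A ≠ 0 → ∏ p ∈ A, p ≤ z ^ (4 * b + 6)) →
      ∑ d ∈ Icc 1 (z ^ (4 * b + 6)),
        (if d ∣ ∏ p ∈ P, p then F d.primeFactors else 0) / (Nat.totient d : ℝ) =
        ∑ A ∈ P.powerset, F A * ∏ p ∈ A, (fun q : ℕ => 1 / ((q : ℝ) - 1)) p := by
    intro F hF
    have hz2 : z ^ (4 * b + 6) ≤ max (z ^ (4 * b + 6)) (∏ p ∈ P, p) := le_max_left _ _
    have hz3 : ∏ p ∈ P, p ≤ max (z ^ (4 * b + 6)) (∏ p ∈ P, p) := le_max_right _ _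
    rw [sum_subset (Icc_subset_Icc (le_refl 1) hz2)]
    · refine sum_conv hprime (fun A => F A * ∏ p ∈ A, (fun q : ℕ => 1 / ((q : ℝ) - 1)) p)
        _ _ P Subset.rfl ?_ ?_ ?_ ?_
      · intro A hA
        rw [mem_Icc]
        exact ⟨hpos A hA, (Nat.le_of_dvd (hpos P Subset.rfl) (hdv A hA)).trans hz3⟩
      · intro d _ hd
        exact hpf d hd
      · intro A hA
        show (if ∏ p ∈ A, p ∣ ∏ p ∈ P, p then F (∏ p ∈ A, p).primeFactors else 0) /
          (Nat.totient (∏ p ∈ A, p) : ℝ) = F A * ∏ p ∈ A, 1 / ((p : ℝ) - 1)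
        rw [if_pos (hdv A hA), hpp A hA, ← tot_prod fun p hp => hprime p (hA hp), mul_one_div]
      · intro d _ hd
        show (if d ∣ ∏ p ∈ P, p then F d.primeFactors else 0) / (Nat.totient d : ℝ) = 0
        rw [if_neg hd, zero_div]
    · intro d hd hd'
      rw [mem_Icc] at hd hd'
      split_ifs with h1
      · by_cases h2 : F d.primeFactors = 0
        · rw [h2, zero_div]
        · exfalso
          have h3 := hF _ (hpf d h1) h2
          rw [Nat.prod_primeFactors_of_squarefree (hsq.squarefree_of_dvd h1)] at h3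
          exact hd' ⟨hd.1, h3⟩
      · rw [zero_div]
  have hS : ∀ n : ℕ, (if ∀ p ∈ P, ¬ p ∣ n then (1 : ℝ) else 0) =
      if P.filter (fun p => p ∣ n) = ∅ then 1 else 0 := by
    intro n
    have h1 : (∀ p ∈ P, ¬ p ∣ n) ↔ P.filter (fun p => p ∣ n) = ∅ := by
      rw [filter_eq_empty_iff]
    by_cases h2 : ∀ p ∈ P, ¬ p ∣ n
    · rw [if_pos h2, if_pos (h1.1 h2)]
    · rw [if_neg h2, if_neg (fun h => h2 (h1.2 h))]
  refine ⟨fun d => if d ∣ ∏ p ∈ P, p then L d.primeFactors else 0,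
    fun d => if d ∣ ∏ p ∈ P, p then L' d.primeFactors else 0, ?_, ?_, ?_, ?_, ?_⟩
  · intro d
    constructor
    · show |if d ∣ ∏ p ∈ P, p then L d.primeFactors else 0| ≤ 1
      split_ifs
      · exact (ha _).1
      · rw [abs_zero]; exact zero_le_one
    · show |if d ∣ ∏ p ∈ P, p then L' d.primeFactors else 0| ≤ 1
      split_ifs
      · exact (ha _).2
      · rw [abs_zero]; exact zero_le_one
  · intro d hd
    have hd : (if d ∣ ∏ p ∈ P, p then L d.primeFactors else 0) ≠ 0 ∨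
      (if d ∣ ∏ p ∈ P, p then L' d.primeFactors else 0) ≠ 0 := hd
    by_cases h1 : d ∣ ∏ p ∈ P, p
    · rw [if_pos h1, if_pos h1] at hd
      have h3 := hlev _ (hpf d h1) hd
      rw [Nat.prod_primeFactors_of_squarefree (hsq.squarefree_of_dvd h1)] at h3
      exact ⟨h1, h3⟩
    · rw [if_neg h1, if_neg h1] at hd
      simp at hd
  · intro n hn
    rw [hdiv L n hn, hdiv L' n hn, hS n]
    exact hs _ (filter_subset _ _)
  · rw [hmean L (fun A hA h1 => hlev A hA (Or.inl h1))]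
    exact hm1
  · rw [hmean L' (fun A hA h1 => hlev A hA (Or.inr h1))]
    exact hm3.trans (mul_le_mul_of_nonneg_right hgg hV)

end Pool.Agent.Helper35.TW
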