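import Pool.Agent.Helper76.TW.Goals
import Pool.Agent.Helper60.TU.EB
import Pool.Agent.Helper10.TU.BH

/-!
# Packet TW-EB2: the conditions given by `d` reduced to progressions
-/

set_option autoImplicit false

open Finset Filter Topology

open scoped Classical

namespace Pool.Agent.Helper35.TW

open Pool.Agent.Helper76.TW
open Pool.Agent.Helper88.TU
open Pool.Agent.Helper88.CG (tw pw th sg)
open Pool.Agent.Helper88.PP (pr Rg om Sf SS)
open Pool.Agent.Helper88.RR (gg nz)
open Pool.Agent.Helper88.GM (NI XI)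
open Pool.Agent.Helper54.CG (pw_supp pw_nonneg pw_le xx Tw one_pt cls mem_pr')
open Pool.Agent.Helper60.TU (im sieve hit_sub EF_nonneg AA_sub hit_insert)

/-! ### The classes -/

lemma th_classQ {X Q j b M c : ℕ} (hx : 0 < X) (hj : (j : ℝ) ≤ X / 32) (hQ : Q ∣ M)
    (hc : c % Q = b) :
    ∑ n ∈ NI (X / 32) X Q b, pw X (n + j) * (if n ≡ c [MOD M] then 1 else 0) =
      th X M (c + j) := by
  unfold th
  have h1 : ∑ n ∈ NI (X / 32) X Q b, pw X (n + j) * (if n ≡ c [MOD M] then 1 else 0) =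
      ∑ n ∈ (NI (X / 32) X Q b).filter (fun n => n ≡ c [MOD M]), pw X (n + j) := by
    rw [sum_filter]
    apply sum_congr rfl
    intro n _
    split_ifs <;> simp
  rw [h1]
  apply sum_bij_ne_zero (fun n _ _ => n + j)
  · intro n hn h
    rw [mem_filter] at hn
    obtain ⟨h2, h3, h4⟩ := pw_supp hx h
    rw [mem_filter, mem_Icc]
    exact ⟨⟨h2.one_le, h4.le⟩, hn.2.add_right j⟩
  · intro a _ _ b' _ _ hab
    simpa using hab
  · intro n' hn' h
    obtain ⟨h2, h3, h4⟩ := pw_supp hx h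
    rw [mem_filter, mem_Icc] at hn'
    have h5 : (X : ℝ) / 32 + j < n' := by linarith
    have hx' : (0 : ℝ) < X := by exact_mod_cast hx
    have h6 : j < n' := by
      have : (j : ℝ) < n' := by linarith
      exact_mod_cast this
    have h7 : n' - j ≡ c [MOD M] := by
      have h8 : n' - j + j ≡ c + j [MOD M] := by
        rw [Nat.sub_add_cancel h6.le]
        exact hn'.2
      exact Nat.ModEq.add_right_cancel' j h8
    refine ⟨n' - j, ?_, ?_, Nat.sub_add_cancel h6.le⟩
    · rw [mem_filter]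
      refine ⟨?_, h7⟩
      unfold NI
      rw [mem_filter, mem_Ioc]
      refine ⟨⟨?_, by omega⟩, ?_⟩
      · have h8 : ((X / 32 : ℕ) : ℝ) < ((n' - j : ℕ) : ℝ) := by
          rw [Nat.cast_sub h6.le]
          have : ((X / 32 : ℕ) : ℝ) ≤ (X : ℝ) / 32 := Nat.cast_div_le
          linarith
        exact_mod_cast h8
      · rw [← hc]
        exact h7.of_dvd hQ
    · rw [Nat.sub_add_cancel h6.le]
      exact h
  · intro a _ _
    rfl

/-- the terms of the sieve are sums over progressions -/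
lemma keyQ {X z y Q b j u : ℕ} (hu : X / 32 = u) (hx : 0 < X) (hQp : ∀ p : ℕ, p.Prime → p ∣ Q → p ≤ y)
    (hyz : y ≤ z) (hb : b < Q)
    (hj : 1 ≤ j ∧ j ≤ y) (hjx : (j : ℝ) ≤ X / 32) {P : Finset ℕ} (hP : P ⊆ Icc 1 y) (hjP : j ∉ P)
    {d : P → ℕ} (hd : ∀ i, d i = 0 ∨ Sf z (d i))
    (hdc : ∀ i i', i ≠ i' → d i ≠ 0 → d i' ≠ 0 → Nat.Coprime (d i) (d i'))
    (hco : Nat.Coprime (b + j) Q) {A : Finset ℕ} (hA : A ⊆ pr y z) (f : ∀ p ∈ A, P) :
    ∃ a : ℕ, Nat.Coprime a (Q * (∏ p ∈ A, p) * ∏ i, max 1 (d i)) ∧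
      Tw (NI u X Q b) (fun n => pw X (n + j) *
        (if ∀ i : P, max 1 (d i) ∣ n + (i : ℕ) then 1 else 0)) A f =
        th X (Q * (∏ p ∈ A, p) * ∏ i, max 1 (d i)) a ∧
      Tw (NI u X Q b) (fun n => pw X (n + j)) A f = th X (Q * ∏ p ∈ A, p) a := by
  subst hu
  have hprime : ∀ p ∈ A, p.Prime := fun p hp => (mem_pr' (hA hp)).2.2
  have hpy : ∀ p ∈ A, y < p := fun p hp => (mem_pr' (hA hp)).1
  have hpz : ∀ p ∈ A, p ≤ z := fun p hp => (mem_pr' (hA hp)).2.1
  have hez : ∀ i : P, ∀ p : ℕ, p.Prime → p ∣ max 1 (d i) → z < p := by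
    intro i p hp h
    rcases hd i with h0 | h0
    · rw [h0] at h
      simp only [zero_le, max_eq_left, Nat.dvd_one] at h
      exact absurd h hp.one_lt.ne'
    · have h1 : d i ≠ 0 := h0.1.ne_zero
      rw [max_eq_right (Nat.one_le_iff_ne_zero.2 h1)] at h
      exact h0.2 p hp h
  have hec : ∀ i i' : P, i ≠ i' → Nat.Coprime (max 1 (d i)) (max 1 (d i')) := by
    intro i i' hne
    by_cases h1 : d i = 0
    · rw [h1]; simp
    · by_cases h2 : d i' = 0
      · rw [h2]; simp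
      · rw [max_eq_right (Nat.one_le_iff_ne_zero.2 h1), max_eq_right (Nat.one_le_iff_ne_zero.2 h2)]
        exact hdc i i' hne h1 h2
  have hAQ : ∀ p ∈ A, Nat.Coprime Q p := by
    intro p hp
    rw [Nat.coprime_comm, (hprime p hp).coprime_iff_not_dvd]
    intro h
    have h1 := hQp p (hprime p hp) h
    have h2 := hpy p hp
    omega
  have hQe : ∀ i : P, Nat.Coprime Q (max 1 (d i)) := by
    intro i
    apply Nat.coprime_of_dvd
    intro p hp h1 h2
    have h3 := hQp p hp h1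
    have h4 := hez i p hp h2
    omega
  have hAe : ∀ p ∈ A, ∀ i : P, Nat.Coprime p (max 1 (d i)) := by
    intro p hp i
    rw [(hprime p hp).coprime_iff_not_dvd]
    intro h
    have h1 := hez i p (hprime p hp) h
    have h2 := hpz p hp
    omega
  obtain ⟨c, hc1, hc2, hc3, hc4, hc5⟩ := cls hb (fun i : P => max 1 (d i))
    (fun i => lt_of_lt_of_le one_pos (le_max_left _ _)) hec A hprime hAQ hQe hAe f
  have hcop : Nat.Coprime (c + j) (Q * (∏ p ∈ A, p) * ∏ i, max 1 (d i)) := by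
    apply Nat.Coprime.mul_right
    · apply Nat.Coprime.mul_right
      · have h1 : (c + j) ≡ b + j [MOD Q] := by
          apply Nat.ModEq.add_right
          show c % Q = b % Q
          rw [hc1, Nat.mod_eq_of_lt hb]
        have h2 := h1.gcd_eq
        unfold Nat.Coprime at hco ⊢
        rw [h2]
        exact hco
      · apply Nat.Coprime.prod_right
        intro p hp
        rw [Nat.coprime_comm, (hprime p hp).coprime_iff_not_dvd]
        intro h
        have h1 := one_pt (hpy p hp) (mem_Icc.1 (hP (f p hp).2)) hj (hc2 p hp) h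
        exact hjP (h1 ▸ (f p hp).2)
    · apply Nat.Coprime.prod_right
      intro i _
      apply Nat.coprime_of_dvd
      intro p hp h1 h2
      have h3 := hez i p hp h2
      have h4 := one_pt (lt_of_le_of_lt hyz h3) (mem_Icc.1 (hP i.2)) hj
        (h2.trans (hc3 i)) h1
      exact hjP (h4 ▸ i.2)
  have hT1 : Tw (NI (X / 32) X Q b) (fun n => pw X (n + j) *
      (if ∀ i : P, max 1 (d i) ∣ n + (i : ℕ) then 1 else 0)) A f =
      ∑ n ∈ NI (X / 32) X Q b, pw X (n + j) *
        (if n ≡ c [MOD Q * (∏ p ∈ A, p) * ∏ i, max 1 (d i)] then 1 else 0) := by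
    unfold Tw
    apply sum_congr rfl
    intro n hn
    have hnb : n % Q = b := (mem_filter.1 hn).2
    rw [prod_ite_zero, prod_const_one, mul_assoc]
    congr 1
    have h5 := hc5 n hnb
    by_cases h6 : n ≡ c [MOD Q * (∏ p ∈ A, p) * ∏ i, max 1 (d i)]
    · obtain ⟨h7, h8⟩ := h5.2 h6
      have h9 : ∀ p ∈ A.attach, (p : ℕ) ∣ n + (f p.1 p.2 : ℕ) := fun p _ => h7 p.1 p.2
      rw [if_pos h6, if_pos h8, if_pos h9, mul_one]
    · rw [if_neg h6]
      by_cases h7 : ∀ i : P, max 1 (d i) ∣ n + (i : ℕ)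
      · rw [if_pos h7, one_mul, if_neg]
        intro h8
        exact h6 (h5.1 ⟨fun p hp => h8 ⟨p, hp⟩ (mem_attach _ _), h7⟩)
      · rw [if_neg h7, zero_mul]
  have hT2 : Tw (NI (X / 32) X Q b) (fun n => pw X (n + j)) A f =
      ∑ n ∈ NI (X / 32) X Q b, pw X (n + j) *
        (if n ≡ c [MOD Q * ∏ p ∈ A, p] then 1 else 0) := by
    unfold Tw
    apply sum_congr rfl
    intro n hn
    have hnb : n % Q = b := (mem_filter.1 hn).2
    rw [prod_ite_zero, prod_const_one]
    congr 1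
    have h5 := hc4 n hnb
    by_cases h6 : n ≡ c [MOD Q * ∏ p ∈ A, p]
    · have h9 : ∀ p ∈ A.attach, (p : ℕ) ∣ n + (f p.1 p.2 : ℕ) := fun p _ => h5.2 h6 p.1 p.2
      rw [if_pos h6, if_pos h9]
    · rw [if_neg h6, if_neg]
      intro h8
      exact h6 (h5.1 (fun p hp => h8 ⟨p, hp⟩ (mem_attach _ _)))
  refine ⟨c + j, hcop, ?_, ?_⟩
  · rw [hT1]
    exact th_classQ hx hjx (Dvd.intro _ (mul_assoc _ _ _).symm) hc1
  · rw [hT2]
    exact th_classQ hx hjx (Dvd.intro _ rfl) hc1

/-! ### The points -/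

section points

variable {P : Finset ℕ} (j : ℕ)

/-- the points `i`, `i + 2` and `j + 2` -/
noncomputable def P2 (P : Finset ℕ) (j : ℕ) : Finset ℕ := P ∪ (insert j P).image (fun i => i + 2)

/-- the labels at these points -/
noncomputable def d2 (d : P → ℕ) (i : P2 P j) : ℕ := if h : (i : ℕ) ∈ P then d ⟨i, h⟩ else 0

/-- the points at which there is a condition -/
noncomputable def B2 (d : P → ℕ) : Finset (P2 P j) :=
  univ.filter (fun i => (∃ h : (i : ℕ) ∈ P, d ⟨i, h⟩ ≠ 0) ∨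
    (∃ i' : P, (i : ℕ) = i' + 2 ∧ d i' ≠ 0) ∨ (i : ℕ) = j + 2)

end points

lemma P2_sub {y j : ℕ} {P : Finset ℕ} (hsep : Sep y (insert j P)) : P2 P j ⊆ Icc 1 y := by
  intro i hi
  unfold P2 at hi
  rw [mem_union, mem_image] at hi
  rw [mem_Icc]
  rcases hi with hi | ⟨i', hi', rfl⟩
  · have := hsep.1 i (mem_insert_of_mem hi)
    omega
  · have := hsep.1 i' hi'
    omega

lemma j_notMem {y j : ℕ} {P : Finset ℕ} (hj : j ∉ P) (hsep : Sep y (insert j P)) : j ∉ P2 P j := by
  intro hi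
  unfold P2 at hi
  rw [mem_union, mem_image] at hi
  rcases hi with hi | ⟨i', hi', h⟩
  · exact hj hi
  · exact hsep.2 i' hi' j (mem_insert_self _ _) h.symm

lemma add_two_notMem {y j : ℕ} {P : Finset ℕ} (hsep : Sep y (insert j P)) {i : ℕ}
    (hi : i ∈ insert j P) : i + 2 ∉ P := by
  intro h
  exact hsep.2 i hi (i + 2) (mem_insert_of_mem h) rfl

lemma prod_d2 {M : Type*} [CommMonoid M] {P : Finset ℕ} (j : ℕ) (d : P → ℕ) (g : ℕ → M)
    (hg : g 0 = 1) : ∏ i : P2 P j, g (d2 j d i) = ∏ i : P, g (d i) := by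
  have h1 : ∏ i : P2 P j, g (d2 j d i) =
      ∏ i ∈ P2 P j, g (if h : i ∈ P then d ⟨i, h⟩ else 0) :=
    (prod_coe_sort (P2 P j) (fun i => g (if h : i ∈ P then d ⟨i, h⟩ else 0)))
  have h2 : ∏ i : P, g (d i) = ∏ i ∈ P, g (if h : i ∈ P then d ⟨i, h⟩ else 0) := by
    rw [← prod_coe_sort P]
    refine prod_congr rfl fun i _ => ?_
    rw [dif_pos i.2]
  rw [h1, h2]
  symm
  refine prod_subset subset_union_left ?_
  intro i _ hi
  rw [dif_neg hi, hg]

/-- the points of `P` at which there is a condition -/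
noncomputable def B0 {P : Finset ℕ} (d : P → ℕ) : Finset ℕ :=
  (univ.filter (fun i : P => d i ≠ 0)).image (fun i : P => (i : ℕ))

lemma mem_B0 {P : Finset ℕ} {d : P → ℕ} {i : ℕ} : i ∈ B0 d ↔ ∃ h : i ∈ P, d ⟨i, h⟩ ≠ 0 := by
  unfold B0
  rw [mem_image]
  constructor
  · rintro ⟨i', hi', rfl⟩
    exact ⟨i'.2, (mem_filter.1 hi').2⟩
  · rintro ⟨h, h1⟩
    exact ⟨⟨i, h⟩, mem_filter.2 ⟨mem_univ _, h1⟩, rfl⟩

lemma B0_sub {P : Finset ℕ} {d : P → ℕ} : B0 d ⊆ P := fun _ hi => (mem_B0.1 hi).1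

lemma im_B2 {P : Finset ℕ} (j : ℕ) (d : P → ℕ) :
    im (B2 j d) = B0 d ∪ (insert j (B0 d)).image (fun i => i + 2) := by
  ext i
  unfold im B2 P2
  rw [mem_image, mem_union, mem_image]
  constructor
  · rintro ⟨i', hi', rfl⟩
    rcases (mem_filter.1 hi').2 with ⟨h, h1⟩ | ⟨i'', h, h1⟩ | h
    · exact Or.inl (mem_B0.2 ⟨h, h1⟩)
    · exact Or.inr ⟨i'', mem_insert_of_mem (mem_B0.2 ⟨i''.2, h1⟩), h.symm⟩
    · exact Or.inr ⟨j, mem_insert_self _ _, h.symm⟩
  · rintro (hi | ⟨i', hi', rfl⟩)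
    · obtain ⟨h, h1⟩ := mem_B0.1 hi
      exact ⟨⟨i, mem_union_left _ h⟩, mem_filter.2 ⟨mem_univ _, Or.inl ⟨h, h1⟩⟩, rfl⟩
    · rcases mem_insert.1 hi' with rfl | hi'
      · exact ⟨⟨i' + 2, mem_union_right _ (mem_image.2 ⟨i', mem_insert_self _ _, rfl⟩)⟩,
          mem_filter.2 ⟨mem_univ _, Or.inr (Or.inr rfl)⟩, rfl⟩
      · obtain ⟨h, h1⟩ := mem_B0.1 hi'
        exact ⟨⟨i' + 2, mem_union_right _ (mem_image.2 ⟨i', mem_insert_of_mem h, rfl⟩)⟩,
          mem_filter.2 ⟨mem_univ _, Or.inr (Or.inl ⟨⟨i', h⟩, rfl, h1⟩)⟩, rfl⟩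

lemma card_B2 {y j : ℕ} {P : Finset ℕ} (hj : j ∉ P) (hsep : Sep y (insert j P)) (d : P → ℕ) :
    (B2 j d).card = 2 * nz d + 1 := by
  have h1 : (B2 j d).card = (im (B2 j d)).card := by
    unfold im
    rw [card_image_of_injective _ Subtype.val_injective]
  have h2 : (B0 d).card = nz d := by
    unfold B0 nz
    rw [card_image_of_injective _ Subtype.val_injective]
  have h3 : Disjoint (B0 d) ((insert j (B0 d)).image (fun i => i + 2)) := by
    rw [disjoint_left]
    intro i hi h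
    obtain ⟨i', hi', rfl⟩ := mem_image.1 h
    exact add_two_notMem hsep (insert_subset_insert j B0_sub hi') (B0_sub hi)
  rw [h1, im_B2, card_union_of_disjoint h3, card_image_of_injective _ (add_left_injective 2),
    card_insert_of_notMem (fun h => hj (B0_sub h)), h2]
  ring

/-! ### The terms of `CJ` -/

lemma term_eq {x y z j n : ℕ} {P : Finset ℕ} (d : P → ℕ) :
    pj x y z j n * ∏ i : P, icR (R2 y z) (d i) (n + (i : ℕ)) =
      pw (32 * x) (n + j) * (if ∀ i : P2 P j, max 1 (d2 j d i) ∣ n + (i : ℕ) then 1 else 0) *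
        (if ∀ i ∈ B2 j d, Rg y z (n + (i : ℕ)) then 1 else 0) := by
  have h1 : ∏ i : P, icR (R2 y z) (d i) (n + (i : ℕ)) =
      if ∀ i : P, d i ≠ 0 → (d i ∣ n + (i : ℕ) ∧ R2 y z (n + i)) then 1 else 0 := by
    by_cases h : ∀ i : P, d i ≠ 0 → (d i ∣ n + (i : ℕ) ∧ R2 y z (n + i))
    · rw [if_pos h]
      refine prod_eq_one fun i _ => ?_
      unfold icR
      by_cases h0 : d i = 0
      · rw [if_pos h0]
      · rw [if_neg h0, if_pos (h i h0)]
    · rw [if_neg h]
      push Not at h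
      obtain ⟨i, h0, h2⟩ := h
      refine prod_eq_zero (mem_univ i) ?_
      unfold icR
      rw [if_neg h0, if_neg]
      exact fun h3 => h2 h3.1 h3.2
  have h2 : (Rg y z (n + j + 2) ∧ ∀ i : P, d i ≠ 0 → (d i ∣ n + (i : ℕ) ∧ R2 y z (n + i))) ↔
      ((∀ i : P2 P j, max 1 (d2 j d i) ∣ n + (i : ℕ)) ∧
        ∀ i ∈ B2 j d, Rg y z (n + (i : ℕ))) := by
    constructor
    · rintro ⟨ha, hb⟩
      refine ⟨fun i => ?_, fun i hi => ?_⟩
      · unfold d2
        by_cases h : (i : ℕ) ∈ P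
        · rw [dif_pos h]
          by_cases h0 : d ⟨i, h⟩ = 0
          · rw [h0]; simp
          · rw [max_eq_right (Nat.one_le_iff_ne_zero.2 h0)]
            exact (hb ⟨i, h⟩ h0).1
        · rw [dif_neg h]; simp
      · rcases (mem_filter.1 hi).2 with ⟨h, h1⟩ | ⟨i'', h, h1⟩ | h
        · exact (hb ⟨i, h⟩ h1).2.1
        · rw [h]
          exact (hb i'' h1).2.2
        · rw [h]
          exact ha
    · rintro ⟨ha, hb⟩
      refine ⟨?_, fun i h0 => ⟨?_, ?_, ?_⟩⟩
      · exact hb ⟨j + 2, mem_union_right _ (mem_image.2 ⟨j, mem_insert_self _ _, rfl⟩)⟩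
          (mem_filter.2 ⟨mem_univ _, Or.inr (Or.inr rfl)⟩)
      · have h3 := ha ⟨i, mem_union_left _ i.2⟩
        unfold d2 at h3
        rw [dif_pos (show ((⟨i, mem_union_left _ i.2⟩ : P2 P j) : ℕ) ∈ P from i.2)] at h3
        have h4 : d ⟨((⟨i, mem_union_left _ i.2⟩ : P2 P j) : ℕ), i.2⟩ = d i := rfl
        rw [h4, max_eq_right (Nat.one_le_iff_ne_zero.2 h0)] at h3
        exact h3
      · exact hb ⟨i, mem_union_left _ i.2⟩ (mem_filter.2 ⟨mem_univ _, Or.inl ⟨i.2, h0⟩⟩)
      · exact hb ⟨i + 2, mem_union_right _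
          (mem_image.2 ⟨i, mem_insert_of_mem i.2, rfl⟩)⟩
          (mem_filter.2 ⟨mem_univ _, Or.inr (Or.inl ⟨i, rfl, h0⟩)⟩)
  rw [h1]
  unfold pj
  rw [mul_assoc, mul_assoc]
  congr 1
  by_cases h3 : Rg y z (n + j + 2)
  · by_cases h4 : ∀ i : P, d i ≠ 0 → (d i ∣ n + (i : ℕ) ∧ R2 y z (n + i))
    · obtain ⟨h5, h6⟩ := h2.1 ⟨h3, h4⟩
      rw [if_pos h3, if_pos h4, if_pos h5, if_pos h6]
    · rw [if_neg h4, mul_zero]
      by_cases h5 : ∀ i : P2 P j, max 1 (d2 j d i) ∣ n + (i : ℕ)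
      · rw [if_neg (fun h6 => h4 (h2.2 ⟨h5, h6⟩).2), mul_zero]
      · rw [if_neg h5, zero_mul]
  · rw [if_neg h3, zero_mul]
    by_cases h5 : ∀ i : P2 P j, max 1 (d2 j d i) ∣ n + (i : ℕ)
    · rw [if_neg (fun h6 => h3 (h2.2 ⟨h5, h6⟩).1), mul_zero]
    · rw [if_neg h5, zero_mul]

lemma B2_sg {P : Finset ℕ} (j : ℕ) (d : P → ℕ) : B2 j (fun i => sg (d i)) = B2 j d := by
  have h : ∀ m : ℕ, sg m ≠ 0 ↔ m ≠ 0 := by
    intro m
    unfold sg
    split_ifs with h <;> simp [h]
  unfold B2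
  simp only [h]

lemma term_eq_sg {x y z j n : ℕ} {P : Finset ℕ} (d : P → ℕ) :
    pj x y z j n * ∏ i : P, icR (R2 y z) (sg (d i)) (n + (i : ℕ)) =
      pw (32 * x) (n + j) * (if ∀ i ∈ B2 j d, Rg y z (n + (i : ℕ)) then 1 else 0) := by
  rw [term_eq (fun i => sg (d i)), B2_sg, if_pos, mul_one]
  intro i
  have h1 : d2 j (fun i => sg (d i)) i ≤ 1 := by
    unfold d2
    split_ifs with h
    · show sg (d ⟨i, h⟩) ≤ 1
      unfold sg
      split_ifs <;> simp
    · simp
  rw [max_eq_left h1]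
  exact one_dvd _

/-! ### The error terms -/

lemma err_leN (hBH : StmtBH) {E X y z j : ℕ} (hz : 2 ≤ z) (hx : 0 < X)
    (hzx : 16 * z ≤ X) (N : Finset ℕ) (B : Finset ℕ) (d' : ℕ → ℕ) (w : ℕ → ℝ)
    (hw0 : ∀ n, w n ≠ 0 → w n ≤ 1 ∧ pw X (n + j) ≠ 0 ∧ ∀ i ∈ insert j B, d' i ∣ n + i)
    (Y : ℝ)
    (hTL : ∑ n ∈ N.filter (fun n => ∀ i ∈ insert j B, d' i ∣ n + i),
      EF E y z (hit y z (insert j B) n) ≤ Y) :
    ∑ n ∈ N, w n * EF E y z (hit y z B n) ≤ Y := by
  refine le_trans ?_ hTL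
  rw [sum_filter]
  apply sum_le_sum
  intro n _
  by_cases h : w n = 0
  · rw [h, zero_mul]
    split_ifs
    · exact EF_nonneg hBH hz (hit_sub _ _)
    · exact le_rfl
  · obtain ⟨h1, h2, h3⟩ := hw0 n h
    rw [if_pos h3, hit_insert hx hzx B h2]
    have h4 : 0 ≤ EF E y z (hit y z B n) := EF_nonneg hBH hz (hit_sub _ _)
    nlinarith

/-- **Packet TW-EB2.** -/
theorem eb2 (h1 : StmtTLQ) : StmtEB2 := by
  have hBH : StmtBH := Pool.Agent.Helper10.TU.bh
  obtain ⟨c, hc, E1, hTL⟩ := h1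
  obtain ⟨E2, hsize⟩ := size
  refine ⟨c / 2, by positivity, max (max E1 E2) (max ⌈2 / c⌉₊ 2), ?_⟩
  intro E z x y hE hSu Q b hIq P j hjP hsep d hd hdc hDz hnz
  obtain ⟨a1, a2, a3, a4, a5, a6, a7, a8, a9, a10, a11, a12, a13, a14⟩ :=
    hsize E z x y ((le_max_right _ _).trans ((le_max_left _ _).trans hE)) hSu
  have hEc : 1 ≤ c / 2 * E := by
    have h1 : 2 / c ≤ E := (Nat.le_ceil _).trans
      (by exact_mod_cast (le_max_left _ _).trans ((le_max_right _ _).trans hE))
    rw [div_le_iff₀ hc] at h1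
    linarith
  have hE2 : 2 ≤ E := (le_max_right _ _).trans ((le_max_right _ _).trans hE)
  have hTL := hTL E z x y ((le_max_left _ _).trans ((le_max_left _ _).trans hE)) hSu Q b hIq
  obtain ⟨hbQ, hQp, -⟩ := hIq
  have hz2 : 2 ≤ z := by omega
  have hx1 : 0 < x := by omega
  have hX1 : 0 < 32 * x := by omega
  have hzx : 16 * z ≤ 32 * x := by omega
  have hXx : 32 * x / 32 = x := Nat.mul_div_cancel_left x (by norm_num)
  have hj : 1 ≤ j ∧ j ≤ y := by
    have := hsep.1 j (mem_insert_self _ _)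
    omega
  have hjx : (j : ℝ) ≤ ((32 * x : ℕ) : ℝ) / 32 := by
    have h1 : (j : ℝ) ≤ x := by
      have : j ≤ x := by omega
      exact_mod_cast this
    push_cast
    linarith
  set N := NQ x Q b with hN
  set D : ℕ := ∏ i : P, max 1 (d i) with hD
  have hD0 : 0 < D := prod_pos (fun i _ => lt_of_lt_of_le one_pos (le_max_left _ _))
  have hΦ0 : 0 < Nat.totient D := Nat.totient_pos.2 hD0
  have hΦD : (Nat.totient D : ℝ) ≤ D := by exact_mod_cast Nat.totient_le D
  have hΦpos : (0 : ℝ) < (Nat.totient D : ℝ) := by exact_mod_cast hΦ0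
  have hXI : 0 ≤ XQ x Q := by unfold XQ XI; positivity
  -- the density is nonnegative
  have hgg : 0 ≤ gg y z (2 * nz d + 2) := by
    unfold gg
    apply prod_nonneg
    intro p hp
    obtain ⟨h1, -, h3⟩ := mem_pr' hp
    have h4 : (2 * nz d + 2 : ℕ) ≤ p := by
      have : 2 * nz d + 2 ≤ (2 * nz d + 2) ^ 2 := Nat.le_self_pow (by norm_num) _
      have h5 : E ≤ E ^ 2 := Nat.le_self_pow (by norm_num) _
      omega
    have h5 : (((2 * nz d + 2 : ℕ) : ℝ)) / p ≤ 1 := by
      apply div_le_one_of_le₀ (by exact_mod_cast h4) (Nat.cast_nonneg _)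
    linarith
  by_cases hco : Nat.Coprime (b + j) Q
  swap
  · -- no primes at all
    have hzero : ∀ d' : P → ℕ, CJ x y y z j N d' = 0 := by
      intro d'
      unfold CJ
      apply sum_eq_zero
      intro n hn
      have h0 : pw (32 * x) (n + j) = 0 := by
        by_contra h1
        obtain ⟨h2, h2', -⟩ := pw_supp hX1 h1
        apply hco
        rw [Nat.coprime_comm]
        apply Nat.coprime_of_dvd
        intro p hp h3 h4
        have hn' := mem_filter.1 hn
        have h5 : p ∣ n + j := by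
          have h6 : n + j ≡ b + j [MOD p] := by
            apply Nat.ModEq.add_right
            have h7 : n ≡ b [MOD Q] := by
              show n % Q = b % Q
              rw [hn'.2, Nat.mod_eq_of_lt hbQ]
            exact h7.of_dvd h3
          exact (h6.dvd_iff (dvd_refl p)).2 h4
        rcases (Nat.dvd_prime h2).1 h5 with h6 | h6
        · exact hp.one_lt.ne' h6
        · have h7 : p ≤ y := hQp p hp h3
          have h8 : x < n := (mem_Ioc.1 hn'.1).1
          omega
      unfold pj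
      rw [h0, zero_mul, zero_mul]
    refine ⟨fun _ => 1, fun A _ => Nat.coprime_one_left _, ?_⟩
    rw [hzero, hzero, zero_div, sub_zero, abs_zero]
    apply add_nonneg
    · apply sum_nonneg
      intro A _
      positivity
    · positivity
  · set B : Finset (P2 P j) := B2 j d with hB
    have hk : B.card = 2 * nz d + 1 := card_B2 hjP hsep d
    have hP2 := P2_sub hsep
    have hjP2 := j_notMem hjP hsep
    have hd' : ∀ i : P2 P j, d2 j d i = 0 ∨ Sf z (d2 j d i) := by
      intro i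
      unfold d2
      split_ifs with h
      · exact hd _
      · exact Or.inl rfl
    have hdc' : ∀ i i' : P2 P j, i ≠ i' → d2 j d i ≠ 0 → d2 j d i' ≠ 0 →
        Nat.Coprime (d2 j d i) (d2 j d i') := by
      intro i i' hne h1 h2
      unfold d2 at h1 h2 ⊢
      by_cases h3 : (i : ℕ) ∈ P
      · by_cases h4 : (i' : ℕ) ∈ P
        · rw [dif_pos h3] at h1 ⊢
          rw [dif_pos h4] at h2 ⊢
          refine hdc _ _ ?_ h1 h2
          intro h5
          exact hne (Subtype.ext (congrArg (fun t : P => (t : ℕ)) h5))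
        · rw [dif_neg h4] at h2
          exact absurd rfl h2
      · rw [dif_neg h3] at h1
        exact absurd rfl h1
    have hDD : ∏ i : P2 P j, max 1 (d2 j d i) = D := prod_d2 j d (fun m => max 1 m) rfl
    set w1 : ℕ → ℝ := fun n => pw (32 * x) (n + j) *
      (if ∀ i : P2 P j, max 1 (d2 j d i) ∣ n + (i : ℕ) then 1 else 0) with hw1
    set w2 : ℕ → ℝ := fun n => pw (32 * x) (n + j) with hw2
    have hkey : ∀ A : Finset ℕ, A ⊆ pr y z → ∀ f : (∀ p ∈ A, (P2 P j)), _ := fun A hA f =>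
      keyQ (Q := Q) hXx hX1 hQp a9 hbQ hj hjx hP2 hjP2 hd' hdc' hco hA f
    have hCN1 : CJ x y y z j N d =
        ∑ n ∈ N, w1 n * (if ∀ i ∈ B, Rg y z (n + (i : ℕ)) then 1 else 0) := by
      unfold CJ
      apply sum_congr rfl
      intro n _
      rw [term_eq]
    have hCN2 : CJ x y y z j N (fun i => sg (d i)) =
        ∑ n ∈ N, w2 n * (if ∀ i ∈ B, Rg y z (n + (i : ℕ)) then 1 else 0) := by
      unfold CJ
      apply sum_congr rfl
      intro n _
      rw [term_eq_sg]
    have hw1' : ∀ n, 0 ≤ w1 n := by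
      intro n
      apply mul_nonneg (pw_nonneg _ _)
      split_ifs <;> norm_num
    have hw2' : ∀ n, 0 ≤ w2 n := fun n => pw_nonneg _ _
    have e1 := sieve (E := E) hBH hz2 hP2 B N w1 hw1'
    have e2 := sieve (E := E) hBH hz2 hP2 B N w2 hw2'
    rw [← hCN1] at e1
    rw [← hCN2] at e2
    -- the worst functions
    have ha : ∀ A : Finset ℕ, ∃ a : ℕ, A ⊆ pr y z → (Nat.Coprime a (Q * (∏ p ∈ A, p) * D) ∧
        ∀ f ∈ A.pi (fun _ => B), |Tw N w1 A f - Tw N w2 A f / (Nat.totient D : ℝ)| ≤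
          |th (32 * x) (Q * (∏ p ∈ A, p) * D) a - th (32 * x) (Q * ∏ p ∈ A, p) a /
            (Nat.totient D : ℝ)|) := by
      intro A
      by_cases hA : A ⊆ pr y z
      · by_cases hne : (A.pi (fun _ => B)).Nonempty
        · obtain ⟨f0, hf0, hmax⟩ := exists_max_image (A.pi (fun _ => B))
            (fun f => |Tw N w1 A f - Tw N w2 A f / (Nat.totient D : ℝ)|) hne
          obtain ⟨a, h1, h2, h3⟩ := hkey A hA f0
          rw [hDD] at h1 h2
          refine ⟨a, fun _ => ⟨h1, fun f hf => ?_⟩⟩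
          have h4 := hmax f hf
          rw [← h2, ← h3]
          exact h4
        · refine ⟨1, fun _ => ⟨Nat.coprime_one_left _, fun f hf => ?_⟩⟩
          exact absurd ⟨f, hf⟩ hne
      · exact ⟨1, fun h => absurd h hA⟩
    choose a ha using ha
    refine ⟨a, fun A hA => (ha A (AA_sub hA)).1, ?_⟩
    -- the main difference
    have e3 : |∑ A ∈ AA E y z, (-1 : ℝ) ^ A.card * ∑ f ∈ A.pi (fun _ => B), Tw N w1 A f -
        (∑ A ∈ AA E y z, (-1 : ℝ) ^ A.card * ∑ f ∈ A.pi (fun _ => B), Tw N w2 A f) /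
          (Nat.totient D : ℝ)| ≤
        ∑ A ∈ AA E y z, ((2 * nz d + 1 : ℕ) : ℝ) ^ A.card *
          |th (32 * x) (Q * (∏ p ∈ A, p) * D) (a A) - th (32 * x) (Q * ∏ p ∈ A, p) (a A) /
            (Nat.totient D : ℝ)| := by
      rw [sum_div, ← sum_sub_distrib]
      refine (abs_sum_le_sum_abs _ _).trans (sum_le_sum fun A hA => ?_)
      have h1 : (-1 : ℝ) ^ A.card * ∑ f ∈ A.pi (fun _ => B), Tw N w1 A f -
          (-1 : ℝ) ^ A.card * (∑ f ∈ A.pi (fun _ => B), Tw N w2 A f) / (Nat.totient D : ℝ) =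
          (-1) ^ A.card * ∑ f ∈ A.pi (fun _ => B),
            (Tw N w1 A f - Tw N w2 A f / (Nat.totient D : ℝ)) := by
        rw [sum_sub_distrib, ← sum_div]
        ring
      rw [h1, abs_mul, abs_pow, abs_neg, abs_one, one_pow, one_mul]
      refine (abs_sum_le_sum_abs _ _).trans ?_
      refine (sum_le_sum (fun f hf => (ha A (AA_sub hA)).2 f hf)).trans (le_of_eq ?_)
      rw [sum_const, card_pi, prod_const, nsmul_eq_mul, hk, Nat.cast_pow]
    -- the points
    have hjB : j ∉ im B := by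
      intro h
      obtain ⟨i, -, h1⟩ := mem_image.1 h
      have h2 : (i : ℕ) ∈ P2 P j := i.2
      rw [h1] at h2
      exact hjP2 h2
    have hBcard : (insert j (im B)).card = 2 * nz d + 2 := by
      rw [card_insert_of_notMem hjB]
      unfold im
      rw [card_image_of_injective _ Subtype.val_injective, hk]
    have hBsub : insert j (im B) ⊆ Icc 1 y := by
      intro i hi
      rcases mem_insert.1 hi with rfl | hi
      · exact mem_Icc.2 hj
      · obtain ⟨i', -, rfl⟩ := mem_image.1 hi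
        exact hP2 i'.2
    have hBk : (insert j (im B)).card ^ 2 ≤ E := by
      rw [hBcard]
      exact hnz
    have hSf1 : Sf z 1 := ⟨squarefree_one, fun p hp h => absurd (Nat.dvd_one.1 h) hp.ne_one⟩
    -- first error
    set d1 : ℕ → ℕ := fun i => if h : i ∈ P then max 1 (d ⟨i, h⟩) else 1 with hd1
    have hd1P : ∀ i : P, d1 (i : ℕ) = max 1 (d i) := by
      intro i
      simp only [hd1]
      rw [dif_pos i.2]
    have hd1n : ∀ i : ℕ, i ∉ P → d1 i = 1 := by
      intro i hi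
      simp only [hd1]
      rw [dif_neg hi]
    have hd1j : d1 j = 1 := hd1n j hjP
    have hB0 : ∀ i ∈ insert j (im B), i ∈ P → i ∈ B0 d := by
      intro i hi hiP
      rcases mem_insert.1 hi with rfl | hi
      · exact absurd hiP hjP
      · rw [hB, im_B2, mem_union] at hi
        rcases hi with hi | hi
        · exact hi
        · obtain ⟨i', hi', rfl⟩ := mem_image.1 hi
          exact absurd hiP (add_two_notMem hsep (insert_subset_insert j B0_sub hi'))
    have hB0' : B0 d ⊆ insert j (im B) := by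
      intro i hi
      refine mem_insert_of_mem ?_
      rw [hB, im_B2]
      exact mem_union_left _ hi
    have hprodD : ∀ {M : Type} [CommMonoid M] (g : ℕ → M), g 1 = 1 →
        ∏ i ∈ insert j (im B), g (d1 i) = ∏ i : P, g (max 1 (d i)) := by
      intro M _ g hg
      have h1 : ∏ i ∈ insert j (im B), g (d1 i) = ∏ i ∈ B0 d, g (d1 i) := by
        symm
        refine prod_subset hB0' ?_
        intro i hi hi'
        have h2 : i ∉ P := fun h => hi' (hB0 i hi h)
        rw [hd1n i h2, hg]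
      have h2 : ∏ i ∈ B0 d, g (d1 i) = ∏ i ∈ P, g (d1 i) := by
        refine prod_subset B0_sub ?_
        intro i hi hi'
        have h3 : d ⟨i, hi⟩ = 0 := by
          by_contra h4
          exact hi' (mem_B0.2 ⟨hi, h4⟩)
        have h4 := hd1P ⟨i, hi⟩
        rw [h3] at h4
        have h5 : d1 i = 1 := h4
        rw [h5, hg]
      rw [h1, h2, ← prod_coe_sort P]
      exact prod_congr rfl fun i _ => by rw [hd1P]
    have hTL1 := (hTL (insert j (im B)) hBsub hBk d1 (by
      intro i hi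
      by_cases hiP : i ∈ P
      · obtain ⟨h, h1⟩ := mem_B0.1 (hB0 i hi hiP)
        have h2 := hd1P ⟨i, h⟩
        rw [max_eq_right (Nat.one_le_iff_ne_zero.2 h1)] at h2
        have h3 : d1 i = d ⟨i, h⟩ := h2
        rw [h3]
        rcases hd ⟨i, h⟩ with h4 | h4
        · exact absurd h4 h1
        · exact h4
      · rw [hd1n i hiP]; exact hSf1) (by
      have h1 := hprodD (fun m => m) rfl
      rw [h1]
      refine hDz.trans (Nat.pow_le_pow_right (by omega) (by omega)))).1 (by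
      intro i hi i' hi' hne
      by_cases hiP : i ∈ P
      · by_cases hiP' : i' ∈ P
        · obtain ⟨h, h1⟩ := mem_B0.1 (hB0 i hi hiP)
          obtain ⟨h', h1'⟩ := mem_B0.1 (hB0 i' hi' hiP')
          have h2 := hd1P ⟨i, h⟩
          rw [max_eq_right (Nat.one_le_iff_ne_zero.2 h1)] at h2
          have h3 : d1 i = d ⟨i, h⟩ := h2
          have h2' := hd1P ⟨i', h'⟩
          rw [max_eq_right (Nat.one_le_iff_ne_zero.2 h1')] at h2'
          have h3' : d1 i' = d ⟨i', h'⟩ := h2'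
          rw [h3, h3']
          refine hdc _ _ ?_ h1 h1'
          intro h4
          exact hne (congrArg Subtype.val h4)
        · rw [hd1n i' hiP']; exact Nat.coprime_one_right _
      · rw [hd1n i hiP]; exact Nat.coprime_one_left _)
    have hTL2 := (hTL (insert j (im B)) hBsub hBk (fun _ => 1) (fun _ _ => hSf1) (by
      rw [prod_const_one]
      exact Nat.one_le_pow _ _ (by omega))).1 (fun _ _ _ _ _ => Nat.coprime_one_left _)
    have f1 := err_leN (E := E) hBH hz2 hX1 hzx N (im B) d1 w1 (by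
      intro n hn
      have h1 : pw (32 * x) (n + j) ≠ 0 := left_ne_zero_of_mul hn
      have h2 := right_ne_zero_of_mul hn
      have h3 : ∀ i : P2 P j, max 1 (d2 j d i) ∣ n + (i : ℕ) := by
        by_contra h4
        exact h2 (if_neg h4)
      refine ⟨?_, h1, ?_⟩
      · simp only [hw1]
        rw [if_pos h3, mul_one]
        exact pw_le hX1 _
      · intro i hi
        by_cases hiP : i ∈ P
        · have h4 := h3 ⟨i, mem_union_left _ hiP⟩
          unfold d2 at h4
          rw [dif_pos (show ((⟨i, mem_union_left _ hiP⟩ : P2 P j) : ℕ) ∈ P from hiP)] at h4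
          have h5 := hd1P ⟨i, hiP⟩
          have h6 : d1 i = max 1 (d ⟨i, hiP⟩) := h5
          rw [h6]
          exact h4
        · rw [hd1n i hiP]; exact one_dvd _) _ hTL1.2
    have f2 := err_leN (E := E) hBH hz2 hX1 hzx N (im B) (fun _ => 1) w2 (by
      intro n hn
      exact ⟨pw_le hX1 _, hn, fun _ _ => one_dvd _⟩) _ hTL2.2
    have hprodR : ∏ i ∈ insert j (im B), (1 / (d1 i : ℝ)) = 1 / (D : ℝ) := by
      have h1 := hprodD (fun m => (1 / (m : ℝ))) (by norm_num)
      rw [h1, hD, Nat.cast_prod, prod_div_distrib, prod_const_one]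
    rw [hBcard, hprodR] at f1
    rw [hBcard] at f2
    simp only [Nat.cast_one, div_one, prod_const_one, mul_one] at f2
    set X := XQ x Q with hX
    set g := gg y z (2 * nz d + 2) with hg
    have hexp : 2 * Real.exp (-(c * E)) ≤ Real.exp (-(c / 2 * E)) := by
      have h1 : Real.exp (-(c * E)) = Real.exp (-(c / 2 * E)) * Real.exp (-(c / 2 * E)) := by
        rw [← Real.exp_add]
        ring_nf
      have h2 : Real.exp (-(c / 2 * E)) ≤ 1 / 2 := by
        rw [Real.exp_neg, inv_eq_one_div]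
        apply one_div_le_one_div_of_le (by norm_num)
        have := Real.add_one_le_exp (c / 2 * (E : ℝ))
        linarith
      rw [h1]
      nlinarith [Real.exp_pos (-(c / 2 * (E : ℝ)))]
    have hXg : 0 ≤ X * g := mul_nonneg hXI hgg
    have f1' : ∑ n ∈ N, w1 n * EF E y z (hit y z (im B) n) ≤
        Real.exp (-(c * E)) * (X * g / (Nat.totient D : ℝ)) := by
      refine f1.trans ?_
      apply mul_le_mul_of_nonneg_left _ (Real.exp_pos _).le
      calc X * (g * (1 / (D : ℝ))) = X * g / D := by ring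
        _ ≤ X * g / (Nat.totient D : ℝ) := div_le_div_of_nonneg_left hXg hΦpos hΦD
    have f2' : (∑ n ∈ N, w2 n * EF E y z (hit y z (im B) n)) / (Nat.totient D : ℝ) ≤
        Real.exp (-(c * E)) * (X * g / (Nat.totient D : ℝ)) := by
      calc (∑ n ∈ N, w2 n * EF E y z (hit y z (im B) n)) / (Nat.totient D : ℝ)
          ≤ (Real.exp (-(c * E)) * (X * g)) / (Nat.totient D : ℝ) :=
            div_le_div_of_nonneg_right f2 hΦpos.le
        _ = _ := by ring
    have e8 : |(CJ x y y z j N (fun i => sg (d i)) -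
        ∑ A ∈ AA E y z, (-1 : ℝ) ^ A.card * ∑ f ∈ A.pi (fun _ => B), Tw N w2 A f) /
          (Nat.totient D : ℝ)| ≤
        (∑ n ∈ N, w2 n * EF E y z (hit y z (im B) n)) / (Nat.totient D : ℝ) := by
      rw [abs_div, abs_of_pos hΦpos]
      exact div_le_div_of_nonneg_right e2 hΦpos.le
    have e9 : CJ x y y z j N d - CJ x y y z j N (fun i => sg (d i)) / (Nat.totient D : ℝ) =
        (CJ x y y z j N d -
          ∑ A ∈ AA E y z, (-1 : ℝ) ^ A.card * ∑ f ∈ A.pi (fun _ => B), Tw N w1 A f) +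
        (∑ A ∈ AA E y z, (-1 : ℝ) ^ A.card * ∑ f ∈ A.pi (fun _ => B), Tw N w1 A f -
          (∑ A ∈ AA E y z, (-1 : ℝ) ^ A.card * ∑ f ∈ A.pi (fun _ => B), Tw N w2 A f) /
            (Nat.totient D : ℝ)) -
        (CJ x y y z j N (fun i => sg (d i)) -
          ∑ A ∈ AA E y z, (-1 : ℝ) ^ A.card * ∑ f ∈ A.pi (fun _ => B), Tw N w2 A f) /
            (Nat.totient D : ℝ) := by
      ring
    rw [e9]
    have e10 : ∀ u v w : ℝ, |u + v - w| ≤ |u| + |v| + |w| := by
      intro u v w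
      calc |u + v - w| ≤ |u + v| + |w| := abs_sub _ _
        _ ≤ _ := by linarith [abs_add_le u v]
    refine (e10 _ _ _).trans ?_
    have hY : 0 ≤ X * g / (Nat.totient D : ℝ) := div_nonneg hXg hΦpos.le
    have e12 : 2 * Real.exp (-(c * E)) * (X * g / (Nat.totient D : ℝ)) ≤
        Real.exp (-(c / 2 * E)) * (X * g / (Nat.totient D : ℝ)) :=
      mul_le_mul_of_nonneg_right hexp hY
    linarith

end Pool.Agent.Helper35.TW
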